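import Pool.Agent.R280.OrdBanachNet

/-!
# Minimal upper bounds without supremum under a normal cone (MP_c65f17_an, Q1: yes)

Let `X = c ⊕ ℝ` (`c` the convergent sequences) with the closed normal cone
`{(f, a) : f ≥ 0, 0 ≤ a ≤ lim f}`. The increasing sequence `(1_{0, ..., n}, 0)` has the minimal upper
bounds `(1, a)`, `0 ≤ a ≤ 1`, and so it has no supremum.
-/

set_option autoImplicit false

open Pool.Agent.R280.OrdBanach

namespace Pool.Agent.Results.MP_c65f17_an.MinimalNotSmallest

/-- There are a real Banach space `X`, a closed normal cone `K` in `X` and an increasing sequence in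
`X` (a net over `ℕ`) which has a minimal upper bound but no smallest upper bound. -/
theorem result : ∃ (X : Type) (_ : NormedAddCommGroup X) (_ : NormedSpace ℝ X) (K : Set X),
    CompleteSpace X ∧ IsClosedCone K ∧ IsNormalCone K ∧ ∃ x : ℕ → X, IsIncreasingNet K x ∧
      (∃ u, IsMinimalUpperBound K x u) ∧ ¬ ∃ s, IsSmallestUpperBound K x s :=
  ⟨XX, inferInstance, inferInstance, KK, inferInstance, isClosedCone_KK, isNormalCone_KK, seq,
    seq_incr, ⟨mub 0, mub_isMin 0 le_rfl zero_le_one⟩, seq_no_sup⟩

end Pool.Agent.Results.MP_c65f17_an.MinimalNotSmallest
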